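import Pool.Agent.helper77.MC.Spec

set_option autoImplicit false

namespace Pool.Agent.helper77.MC

open Finset Numbering

theorem CR : CR_stmt := by
  intro q k r hr hr1 hkq hk j d
  induction d generalizing j with
  | zero => intro _; simp
  | succ d ih =>
    intro hjd
    have h1 := ih (j + 1) (by omega)
    have h2 : (q.choose j : ℝ) ≤ r * (q.choose (j + 1) : ℝ) := by
      have h3 := Nat.choose_succ_right_eq q j
      have h4 : (q.choose (j + 1) : ℝ) * ((j : ℝ) + 1) = (q.choose j : ℝ) * ((q : ℝ) - j) := by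
        have : ((q.choose (j + 1) * (j + 1) : ℕ) : ℝ) = ((q.choose j * (q - j) : ℕ) : ℝ) := by rw [h3]
        rw [Nat.cast_mul, Nat.cast_mul, Nat.cast_sub (by omega)] at this
        push_cast at this
        exact this
      have hjk : (j : ℝ) + 1 ≤ k := by
        have : j + 1 ≤ k := by omega
        exact_mod_cast this
      have hqk : (k : ℝ) ≤ q := by exact_mod_cast hkq
      have h5 : (j : ℝ) + 1 ≤ r * ((q : ℝ) - j) := by nlinarith
      have h6 : (0 : ℝ) < (q : ℝ) - j := by linarith
      have h7 : (0 : ℝ) ≤ (q.choose (j + 1) : ℝ) := Nat.cast_nonneg _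
      have h8 : (q.choose j : ℝ) * ((q : ℝ) - j) ≤ (r * (q.choose (j + 1) : ℝ)) * ((q : ℝ) - j) := by
        calc (q.choose j : ℝ) * ((q : ℝ) - j) = (q.choose (j + 1) : ℝ) * ((j : ℝ) + 1) := h4.symm
          _ ≤ (q.choose (j + 1) : ℝ) * (r * ((q : ℝ) - j)) := mul_le_mul_of_nonneg_left h5 h7
          _ = _ := by ring
      exact le_of_mul_le_mul_right h8 h6
    calc (q.choose j : ℝ) ≤ r * (q.choose (j + 1) : ℝ) := h2
      _ ≤ r * (r ^ d * (q.choose (j + 1 + d) : ℝ)) := mul_le_mul_of_nonneg_left h1 hr.le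
      _ = r ^ (d + 1) * (q.choose (j + (d + 1)) : ℝ) := by
        rw [show j + 1 + d = j + (d + 1) by omega]; ring

end Pool.Agent.helper77.MC
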