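import Pool.Agent.helper77.MC.Spec

set_option autoImplicit false

namespace Pool.Agent.helper77.MC

open Finset Numbering

theorem FAP_mem {β : Type} [Fintype β] (y : β → ℝ) (c : ℝ) (m : ℕ) (J : Finset β) :
    J ∈ fam y c m ↔ ∑ i ∈ J, y i = c ∧ #J ≤ m := by
  unfold fam
  rw [mem_filter]
  simp

theorem FA : FA_stmt := by
  classical
  intro β _ y c d m l hy hc
  refine ⟨?_, ?_, ?_⟩
  · intro J hJ
    rw [FAP_mem] at hJ
    refine ⟨?_, hJ.2, hJ.1⟩
    by_contra h
    rw [not_nonempty_iff_eq_empty] at h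
    rw [h, sum_empty] at hJ
    linarith [hJ.1]
  · intro J hJ J' hJ' hsub
    rw [FAP_mem] at hJ hJ'
    by_contra hne
    obtain ⟨i, hi, hi2⟩ := exists_of_ssubset (hsub.ssubset_of_ne hne)
    have h1 := sum_lt_sum_of_subset hsub hi hi2 (hy i) (fun j _ _ => (hy j).le)
    linarith [hJ.1, hJ'.1]
  · intro hcd J hJ J' hJ' hsub
    rw [FAP_mem] at hJ hJ'
    have h1 := sum_le_sum_of_subset_of_nonneg hsub (fun j _ _ => (hy j).le)
    linarith [hJ.1, hJ'.1]

end Pool.Agent.helper77.MC
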