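import Pool.Agent.helper77.MC.Spec

set_option autoImplicit false

namespace Pool.Agent.helper77.MC

open Finset Numbering

theorem GD (hFA : FA_stmt) : GD_stmt := by
  intro β _ _ y c m w g hy hc hw hg f
  obtain ⟨h1, h2, -⟩ := hFA β y c c m m hy hc
  by_cases hex : ∃ J ∈ fam y c m, f ∈ prefixed J
  · obtain ⟨J₀, hJ₀, hf₀⟩ := hex
    rw [Finset.sum_eq_single_of_mem J₀ hJ₀, if_pos hf₀]
    · exact hg _ (h1 J₀ hJ₀).2.1
    · intro J hJ hne
      refine if_neg fun hf => ?_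
      have ha : ¬ J ⊆ J₀ := fun h => hne (h2 J hJ J₀ hJ₀ h)
      have hb : ¬ J₀ ⊆ J := fun h => hne (h2 J₀ hJ₀ J hJ h).symm
      exact (Finset.disjoint_left.1 (disjoint_prefixed_prefixed ha hb)) hf hf₀
  · rw [Finset.sum_eq_zero]
    · exact hw
    · intro J hJ
      exact if_neg fun hf => hex ⟨J, hJ, hf⟩

end Pool.Agent.helper77.MC
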