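import Pool.Agent.helper77.MC.Spec

set_option autoImplicit false

namespace Pool.Agent.helper77.MC

open Finset Numbering

theorem P1 (hFA : FA_stmt) : P1_stmt := by
  classical
  intro β _ y c m w hy hc hw hch
  obtain ⟨h1, h2, -⟩ := hFA β y c c m m hy hc
  have hanti : IsAntichain (· ⊆ ·) (SetLike.coe (fam y c m) : Set (Finset β)) := by
    intro J hJ J' hJ' hne hsub
    exact hne (h2 J hJ J' hJ' hsub)
  have hlym := Finset.lubell_yamamoto_meshalkin_inequality_sum_inv_choose (𝕜 := ℝ) hanti
  rcases hw.eq_or_lt with h0 | hpos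
  · have : fam y c m = ∅ := by
      rw [eq_empty_iff_forall_notMem]
      intro J hJ
      have h3 := hch #J (h1 J hJ).2.1
      have h4 : 0 < (Fintype.card β).choose #J := Nat.choose_pos (card_le_univ J)
      have h5 : (0 : ℝ) < ((Fintype.card β).choose #J : ℝ) := by exact_mod_cast h4
      linarith
    rw [this, card_empty, Nat.cast_zero]
    exact hw
  · have h3 : ∑ J ∈ fam y c m, w⁻¹ ≤ ∑ J ∈ fam y c m, ((Fintype.card β).choose #J : ℝ)⁻¹ := by
      refine sum_le_sum fun J hJ => ?_
      have h4 : 0 < (Fintype.card β).choose #J := Nat.choose_pos (card_le_univ J)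
      have h5 : (0 : ℝ) < ((Fintype.card β).choose #J : ℝ) := by exact_mod_cast h4
      exact inv_anti₀ h5 (hch #J (h1 J hJ).2.1)
    rw [sum_const, nsmul_eq_mul] at h3
    have h6 : (#(fam y c m) : ℝ) * w⁻¹ ≤ 1 := h3.trans hlym
    rwa [← div_eq_mul_inv, div_le_one hpos] at h6

end Pool.Agent.helper77.MC
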