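import Pool.Agent.helper77.MC.Spec

set_option autoImplicit false

namespace Pool.Agent.helper77.MC

open Finset Numbering

theorem SG (hJC : JC_stmt) : SG_stmt := by
  intro β _ _ t A hsub hanti
  have hpos : 0 < #(prefixed t : Finset (Numbering β)) := by
    rw [card_prefixed]
    exact Nat.mul_pos (Nat.factorial_pos _) (Nat.factorial_pos _)
  have hposR : (0 : ℝ) < (#(prefixed t : Finset (Numbering β)) : ℝ) := by exact_mod_cast hpos
  have h1 : ∑ s ∈ A, #((prefixed s : Finset (Numbering β)) ∩ prefixed t) ≤ #(prefixed t : Finset (Numbering β)) := by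
    rw [← card_biUnion]
    · refine card_le_card ?_
      intro f hf
      rw [mem_biUnion] at hf
      obtain ⟨s, _, hs⟩ := hf
      exact (mem_inter.1 hs).2
    · intro s hs s' hs' hne
      have ha : ¬ s ⊆ s' := fun h => hne (hanti s hs s' hs' h)
      have hb : ¬ s' ⊆ s := fun h => hne (hanti s' hs' s hs h).symm
      exact (disjoint_prefixed_prefixed ha hb).mono inter_subset_left inter_subset_left
  have h2 : ∀ s ∈ A, (#(prefixed t : Finset (Numbering β)) : ℝ) * ((#t).choose #s : ℝ)⁻¹ =
      (#((prefixed s : Finset (Numbering β)) ∩ prefixed t) : ℝ) := by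
    intro s hs
    have h3 := hJC β s t (hsub s hs)
    have h4 : 0 < (#t).choose #s := Nat.choose_pos (card_le_card (hsub s hs))
    have h5 : ((#t).choose #s : ℝ) ≠ 0 := by positivity
    rw [← h3]
    push_cast
    field_simp
  have h6 : (#(prefixed t : Finset (Numbering β)) : ℝ) * ∑ s ∈ A, ((#t).choose #s : ℝ)⁻¹ ≤
      (#(prefixed t : Finset (Numbering β)) : ℝ) * 1 := by
    rw [mul_sum, sum_congr rfl h2, mul_one]
    exact_mod_cast h1
  exact le_of_mul_le_mul_left h6 hposR

end Pool.Agent.helper77.MC
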